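import Mathlib
import Pool.Agent.Lib.MP_00f3b1_ag.GAuto

set_option autoImplicit false

open Pool.Agent.Lib.MP_00f3b1_ag.Gen

namespace Pool.Agent.Results.MP_00f3b1_ag.ThetaOne

universe u

section aux
variable [D : FD.{u}]

/-- the maximal ideal of a point -/
noncomputable def mx (z : Z) : MaximalSpectrum A :=
  ⟨RingHom.ker (ev z).toRingHom, RingHom.ker_isMaximal_of_surjective _
    (fun c => ⟨algebraMap FD.K A c, (ev z).commutes c⟩)⟩

lemma mx_surj (p : MaximalSpectrum A) : ∃ z, mx z = p := by
  by_contra h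
  push Not at h
  apply p.isMaximal.ne_top
  apply nullstellensatz
  intro z
  by_contra hh
  push Not at hh
  apply h z
  ext1
  exact (p.isMaximal.eq_of_le (mx z).isMaximal.ne_top (fun f hf => hh f hf)).symm

lemma comap_iff (z w : Z) (α : A ≃ₐ[FD.K] A) :
    (mx z).asIdeal.comap α = (mx w).asIdeal ↔ ∀ f, ev z (α f) = ev w f := by
  constructor
  · intro h f
    have h1 : f - algebraMap FD.K A (ev w f) ∈ (mx w).asIdeal := by
      show ev w _ = 0
      rw [map_sub, AlgHom.commutes]; simp
    rw [← h] at h1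
    have h2 : ev z (α (f - algebraMap FD.K A (ev w f))) = 0 := h1
    rw [map_sub, map_sub, AlgEquiv.commutes, AlgHom.commutes] at h2
    simpa [sub_eq_zero] using h2
  · intro h
    ext f
    show ev z (α f) = 0 ↔ ev w f = 0
    rw [h f]

lemma mx_inj : Function.Injective mx := by
  intro z w h
  have := (comap_iff z w (AlgEquiv.refl)).1 (by rw [← h]; ext f; rfl)
  apply ev_inj
  ext f
  exact this f

lemma ln_inj : Function.Injective ln := by
  intro s t h
  have := congrArg (fun z : Z => z.N 0 0) h
  simpa [ln_N] using this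

instance : Infinite Z := Infinite.of_injective ln ln_inj

instance : Infinite (MaximalSpectrum A) := Infinite.of_injective mx mx_inj

end aux

lemma extend_pair {α : Type u} [Infinite α] (k : ℕ) (a b : α) (hab : a ≠ b) :
    ∃ x : Fin (k + 2) → α, Function.Injective x ∧ x 0 = a ∧ x 1 = b := by
  classical
  have hinf : (({a, b} : Set α)ᶜ).Infinite := (Set.toFinite _).infinite_compl
  let e := hinf.natEmbedding
  refine ⟨Fin.cons a (Fin.cons b (fun i : Fin k => (e i : α))), ?_, rfl, rfl⟩
  rw [Fin.cons_injective_iff, Fin.cons_injective_iff]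
  refine ⟨?_, ?_, ?_⟩
  · rintro ⟨i, hi⟩
    refine Fin.cases (fun hi => hab (by simpa using hi.symm)) (fun j hi => ?_) i hi
    have := (e j).2
    simp only [Fin.cons_succ] at hi
    rw [hi] at this
    simp at this
  · rintro ⟨j, hj⟩
    have := (e j).2
    simp only at hj
    rw [hj] at this
    simp at this
  · intro i j h
    exact Fin.ext (e.injective (Subtype.ext h))

/-- Over every algebraically closed field of characteristic zero there is an irreducible affine
variety of dimension at least two with only constant invertible functions whose automorphism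
group is `m`-transitive exactly for `m = 1`. -/
theorem result (K : Type u) [Field K] [IsAlgClosed K] [CharZero K] :
    ∃ (A : Type u) (_ : CommRing A) (_ : Algebra K A),
      IsDomain A ∧ Algebra.FiniteType K A ∧ (2 : WithBot ℕ∞) ≤ ringKrullDim A ∧
      (∀ v : Aˣ, ∃ c : K, algebraMap K A c = v) ∧
      ∀ m : ℕ, 1 ≤ m →
        ((∀ x y : Fin m → MaximalSpectrum A, Function.Injective x → Function.Injective y →
          ∃ φ : A ≃ₐ[K] A, ∀ i, (x i).asIdeal.comap φ = (y i).asIdeal) ↔ m = 1) := by
  let D : FD.{u} := ⟨K⟩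
  refine ⟨A, inferInstance, inferInstance, A_isDomain, A_finiteType, two_le_dim,
    fun v => units_const v v.isUnit, fun m hm => ⟨fun h => ?_, ?_⟩⟩
  · by_contra hne
    obtain ⟨k, rfl⟩ : ∃ k, m = k + 2 := ⟨m - 2, by omega⟩
    obtain ⟨z0, z1, w0, w1, hz, hw, hn⟩ := not_two_transitive
    obtain ⟨x, hx, hx0, hx1⟩ := extend_pair k (mx z0) (mx z1) (fun h => hz (mx_inj h))
    obtain ⟨y, hy, hy0, hy1⟩ := extend_pair k (mx w0) (mx w1) (fun h => hw (mx_inj h))
    obtain ⟨φ, hφ⟩ := h x y hx hy
    refine hn ⟨φ, (comap_iff _ _ φ).1 ?_, (comap_iff _ _ φ).1 ?_⟩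
    · rw [← hx0, ← hy0]; exact hφ 0
    · rw [← hx1, ← hy1]; exact hφ 1
  · rintro rfl x y - -
    obtain ⟨z, hz⟩ := mx_surj (x 0)
    obtain ⟨w, hw⟩ := mx_surj (y 0)
    obtain ⟨α, hα⟩ := transitive z w
    refine ⟨α, fun i => ?_⟩
    rw [Subsingleton.elim i 0, ← hz, ← hw]
    exact (comap_iff z w α).2 hα

end Pool.Agent.Results.MP_00f3b1_ag.ThetaOne
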